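import Mathlib

/-!
# Gale's Nim with four heaps: bounded differences and additive periodicity
-/

set_option autoImplicit false

namespace Pool.Agent.H200GN

/-- The game is over: at least three of the four heaps are empty. -/
def Over (a b c d : ℕ) : Prop :=
  (b = 0 ∧ c = 0 ∧ d = 0) ∨ (a = 0 ∧ c = 0 ∧ d = 0) ∨ (a = 0 ∧ b = 0 ∧ d = 0) ∨
    (a = 0 ∧ b = 0 ∧ c = 0)

/-- `(a, b, c, d)` is a `P`-position of Gale's Nim: the game is over, or no move (which makes one
heap smaller) leads to a `P`-position. -/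
def PPos (a b c d : ℕ) : Prop :=
  Over a b c d ∨ ((∀ a', a' < a → ¬ PPos a' b c d) ∧ (∀ b', b' < b → ¬ PPos a b' c d) ∧
    (∀ c', c' < c → ¬ PPos a b c' d) ∧ (∀ d', d' < d → ¬ PPos a b c d'))
termination_by a + b + c + d

theorem pPos_iff (a b c d : ℕ) : PPos a b c d ↔
    Over a b c d ∨ ((∀ a' < a, ¬ PPos a' b c d) ∧ (∀ b' < b, ¬ PPos a b' c d) ∧
    (∀ c' < c, ¬ PPos a b c' d) ∧ (∀ d' < d, ¬ PPos a b c d')) := by
  rw [PPos]

theorem swap_cd : ∀ (n a b c d : ℕ), a + b + c + d = n → (PPos a b c d ↔ PPos a b d c) := by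
  intro n
  induction n using Nat.strong_induction_on with
  | _ n ih =>
    intro a b c d hn
    rw [pPos_iff a b c d, pPos_iff a b d c]
    have hO : Over a b c d ↔ Over a b d c := by unfold Over; tauto
    have h1 : (∀ a' < a, ¬ PPos a' b c d) ↔ (∀ a' < a, ¬ PPos a' b d c) :=
      forall₂_congr fun a' ha' => not_congr (ih (a' + b + c + d) (by omega) a' b c d rfl)
    have h2 : (∀ b' < b, ¬ PPos a b' c d) ↔ (∀ b' < b, ¬ PPos a b' d c) :=
      forall₂_congr fun b' hb' => not_congr (ih (a + b' + c + d) (by omega) a b' c d rfl)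
    have h3 : (∀ c' < c, ¬ PPos a b c' d) ↔ (∀ c' < c, ¬ PPos a b d c') :=
      forall₂_congr fun c' hc' => not_congr (ih (a + b + c' + d) (by omega) a b c' d rfl)
    have h4 : (∀ d' < d, ¬ PPos a b c d') ↔ (∀ d' < d, ¬ PPos a b d' c) :=
      forall₂_congr fun d' hd' => not_congr (ih (a + b + c + d') (by omega) a b c d' rfl)
    rw [hO, h1, h2, h3, h4]
    tauto

theorem symm_cd {a b c d : ℕ} : PPos a b c d ↔ PPos a b d c := swap_cd _ a b c d rfl

/-- two `P`-positions cannot differ in the last heap only, unless the other heaps are empty -/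
theorem uniq {a b c d d' : ℕ} (h0 : 0 < a + b + c) (h : PPos a b c d) (h' : PPos a b c d') :
    d = d' := by
  wlog hlt : d < d' generalizing d d'
  · rcases lt_trichotomy d d' with h1 | h1 | h1
    · exact this h h' h1
    · exact h1
    · exact (this h' h h1).symm
  exfalso
  rcases (pPos_iff a b c d').1 h' with h1 | h1
  · unfold Over at h1; omega
  · exact h1.2.2.2 d hlt h

/-- the options which change one of the first three heaps -/
def Opt (a b c d : ℕ) : Fin a ⊕ Fin b ⊕ Fin c → Prop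
  | Sum.inl a' => PPos a' b c d
  | Sum.inr (Sum.inl b') => PPos a b' c d
  | Sum.inr (Sum.inr c') => PPos a b c' d

theorem exists_le {a b c : ℕ} (h0 : 0 < a + b + c) : ∃ d ≤ a + b + c, PPos a b c d := by
  by_cases h2 : (0 < a ∧ 0 < b) ∨ (0 < a ∧ 0 < c) ∨ (0 < b ∧ 0 < c)
  swap
  · refine ⟨0, Nat.zero_le _, (pPos_iff _ _ _ _).2 (Or.inl ?_)⟩
    unfold Over
    omega
  by_contra hcon
  push Not at hcon
  -- each `d ≤ a + b + c` has an option which is a `P`-position
  have h1 : ∀ d : Fin (a + b + c + 1), ∃ t : Fin a ⊕ Fin b ⊕ Fin c, Opt a b c d t := by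
    intro d
    have hd := hcon d (by omega)
    rw [pPos_iff] at hd
    push Not at hd
    obtain ⟨hO, hd⟩ := hd
    by_cases ha : ∃ a' < a, PPos a' b c d
    · obtain ⟨a', ha', hp⟩ := ha
      exact ⟨Sum.inl ⟨a', ha'⟩, hp⟩
    by_cases hb : ∃ b' < b, PPos a b' c d
    · obtain ⟨b', hb', hp⟩ := hb
      exact ⟨Sum.inr (Sum.inl ⟨b', hb'⟩), hp⟩
    by_cases hc : ∃ c' < c, PPos a b c' d
    · obtain ⟨c', hc', hp⟩ := hc
      exact ⟨Sum.inr (Sum.inr ⟨c', hc'⟩), hp⟩
    push Not at ha hb hc
    obtain ⟨d', hd', hp⟩ := hd ha hb hc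
    exact absurd hp (hcon d' (by omega))
  choose f hf using h1
  obtain ⟨d1, d2, hne, he⟩ := Fintype.exists_ne_map_eq_of_card_lt f (by
    simp only [Fintype.card_sum, Fintype.card_fin]; omega)
  apply hne
  apply Fin.ext
  have e1 := hf d1
  have e2 := hf d2
  rw [← he] at e2
  rcases hft : f d1 with a' | b' | c'
  · rw [hft] at e1 e2
    exact uniq (a := a') (b := b) (c := c) (by omega) e1 e2
  · rw [hft] at e1 e2
    exact uniq (a := a) (b := b') (c := c) (by omega) e1 e2
  · rw [hft] at e1 e2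
    exact uniq (a := a) (b := b) (c := c') (by omega) e1 e2

theorem le_of_pPos {a b c d : ℕ} (h0 : 0 < a + b + c) (h : PPos a b c d) : d ≤ a + b + c := by
  obtain ⟨d', hd', h'⟩ := exists_le h0
  rw [uniq h0 h h']
  exact hd'

theorem not_two {c d : ℕ} (hc : 0 < c) (hd : 0 < d) : ¬ PPos 0 0 c d := by
  intro h
  rcases (pPos_iff _ _ _ _).1 h with h | h
  · unfold Over at h; omega
  · exact h.2.2.2 0 hd ((pPos_iff _ _ _ _).2 (Or.inl (by unfold Over; omega)))

theorem bound {a b c d : ℕ} (hc : 0 < c) (hd : 0 < d) (h : PPos a b c d) :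
    c ≤ a + b + d ∧ d ≤ a + b + c :=
  ⟨le_of_pPos (by omega) (symm_cd.1 h), le_of_pPos (by omega) h⟩

/-- The table of the `P`-positions in a window determines all later ones. -/
theorem shift {a b c1 c2 : ℕ} (h1 : 0 < c1) (h2 : 0 < c2)
    (hst : ∀ a' ≤ a, ∀ b' ≤ b, ∀ i < 2 * (a + b) + 1, ∀ j < 2 * (a + b) + 1,
      (PPos a' b' (c1 + i) (c1 + j) ↔ PPos a' b' (c2 + i) (c2 + j))) :
    ∀ (n a' b' x y : ℕ), a' + b' + x + y = n → a' ≤ a → b' ≤ b →
      (PPos a' b' (c1 + x) (c1 + y) ↔ PPos a' b' (c2 + x) (c2 + y)) := by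
  intro n
  induction n using Nat.strong_induction_on with
  | _ n ih =>
    intro a' b' x y hn ha hb
    by_cases hw : x < 2 * (a + b) + 1 ∧ y < 2 * (a + b) + 1
    · exact hst a' ha b' hb x hw.1 y hw.2
    by_cases hfar : x ≤ a + b + y ∧ y ≤ a + b + x
    swap
    · constructor
      · intro h
        have := bound (by omega) (by omega) h
        omega
      · intro h
        have := bound (by omega) (by omega) h
        omega
    by_cases h0 : a' + b' = 0
    · obtain rfl : a' = 0 := by omega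
      obtain rfl : b' = 0 := by omega
      exact iff_of_false (not_two (by omega) (by omega)) (not_two (by omega) (by omega))
    rw [pPos_iff a' b' (c1 + x) (c1 + y), pPos_iff a' b' (c2 + x) (c2 + y)]
    have hO : Over a' b' (c1 + x) (c1 + y) ↔ Over a' b' (c2 + x) (c2 + y) := by
      unfold Over; omega
    have e1 : (∀ a'' < a', ¬ PPos a'' b' (c1 + x) (c1 + y)) ↔
        (∀ a'' < a', ¬ PPos a'' b' (c2 + x) (c2 + y)) :=
      forall₂_congr fun a'' ha'' => not_congr (ih (a'' + b' + x + y) (by omega) a'' b' x y rfl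
        (by omega) hb)
    have e2 : (∀ b'' < b', ¬ PPos a' b'' (c1 + x) (c1 + y)) ↔
        (∀ b'' < b', ¬ PPos a' b'' (c2 + x) (c2 + y)) :=
      forall₂_congr fun b'' hb'' => not_congr (ih (a' + b'' + x + y) (by omega) a' b'' x y rfl
        ha (by omega))
    have e3 : (∀ z < c1 + x, ¬ PPos a' b' z (c1 + y)) ↔ (∀ z < c2 + x, ¬ PPos a' b' z (c2 + y)) := by
      constructor
      · intro h z hz hp
        by_cases hz2 : z < c2
        · have := le_of_pPos (by omega) hp
          omega
        · obtain ⟨x', rfl⟩ := Nat.exists_eq_add_of_le (not_lt.1 hz2)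
          exact h (c1 + x') (by omega) ((ih (a' + b' + x' + y) (by omega) a' b' x' y rfl ha hb).2 hp)
      · intro h z hz hp
        by_cases hz2 : z < c1
        · have := le_of_pPos (by omega) hp
          omega
        · obtain ⟨x', rfl⟩ := Nat.exists_eq_add_of_le (not_lt.1 hz2)
          exact h (c2 + x') (by omega) ((ih (a' + b' + x' + y) (by omega) a' b' x' y rfl ha hb).1 hp)
    have e4 : (∀ z < c1 + y, ¬ PPos a' b' (c1 + x) z) ↔ (∀ z < c2 + y, ¬ PPos a' b' (c2 + x) z) := by
      constructor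
      · intro h z hz hp
        by_cases hz2 : z < c2
        · have := le_of_pPos (by omega) (symm_cd.1 hp)
          omega
        · obtain ⟨y', rfl⟩ := Nat.exists_eq_add_of_le (not_lt.1 hz2)
          exact h (c1 + y') (by omega) ((ih (a' + b' + x + y') (by omega) a' b' x y' rfl ha hb).2 hp)
      · intro h z hz hp
        by_cases hz2 : z < c1
        · have := le_of_pPos (by omega) (symm_cd.1 hp)
          omega
        · obtain ⟨y', rfl⟩ := Nat.exists_eq_add_of_le (not_lt.1 hz2)
          exact h (c2 + y') (by omega) ((ih (a' + b' + x + y') (by omega) a' b' x y' rfl ha hb).1 hp)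
    rw [hO, e1, e2, e3, e4]

end Pool.Agent.H200GN
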