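import Pool.Agent.H200GN.Tab

/-!
# The rows of Gale's Nim with two heaps of size at most six
-/

set_option autoImplicit false

namespace Pool.Agent.H200GN

theorem chk_of_lt {a b c : ℕ} (ha : a < 6) (hb : b < 7) (hc : c < 76) : chk a b c = true := by
  have h := chkAll_true
  unfold chkAll at h
  rw [List.all_eq_true] at h
  have h1 := h a (List.mem_range.2 ha)
  rw [List.all_eq_true] at h1
  have h2 := h1 b (List.mem_range.2 hb)
  rw [List.all_eq_true] at h2
  exact h2 c (List.mem_range.2 hc)

theorem ble_iff (a b : ℕ) : Nat.ble a b = true ↔ a ≤ b := Iff.of_eq Nat.ble_eq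

theorem blt_iff (a b : ℕ) : Nat.blt a b = true ↔ a < b := Iff.of_eq Nat.blt_eq

theorem testBit_mask (l : List ℕ) (x : ℕ) : (mask l).testBit x = true ↔ x ∈ l := by
  induction l with
  | nil => simp [mask]
  | cons v l ih =>
    rw [mask, Nat.testBit_or, Bool.or_eq_true, ih, Nat.testBit_two_pow, List.mem_cons]
    constructor
    · rintro (h | h)
      · exact Or.inr h
      · exact Or.inl (by simpa using (of_decide_eq_true h).symm)
    · rintro (h | h)
      · exact Or.inr (decide_eq_true h.symm)
      · exact Or.inl h

theorem mask_spec {l : List ℕ} {t : ℕ} (h : mask l % 2 ^ (t + 1) + 1 = 2 ^ t) :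
    t ∉ l ∧ ∀ d < t, d ∈ l := by
  have h' : mask l % 2 ^ (t + 1) = 2 ^ t - 1 := by omega
  have key : ∀ x, (decide (x < t + 1) && (mask l).testBit x) = decide (x < t) := by
    intro x
    rw [← Nat.testBit_mod_two_pow, h', Nat.testBit_two_pow_sub_one]
  constructor
  · intro ht
    have h1 := key t
    rw [← testBit_mask] at ht
    rw [ht] at h1
    simp at h1
  · intro d hd
    have h1 := key d
    rw [← testBit_mask]
    have e1 : decide (d < t + 1) = true := by simp; omega
    have e2 : decide (d < t) = true := by simp [hd]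
    rw [e1, e2] at h1
    simpa using h1

theorem mem_take {l : List ℕ} {c x : ℕ} (h : x ∈ l.take c) : ∃ i < c, l.getD i 0 = x := by
  obtain ⟨i, hi, rfl⟩ := List.mem_iff_getElem.1 h
  rw [List.length_take] at hi
  refine ⟨i, by omega, ?_⟩
  rw [List.getElem_take, List.getD_eq_getElem _ _ (by omega)]

theorem take_mem {l : List ℕ} {c i : ℕ} (hi : i < c) (hl : i < l.length) :
    l.getD i 0 ∈ l.take c := by
  rw [List.getD_eq_getElem _ _ hl, List.mem_iff_getElem]
  exact ⟨i, by rw [List.length_take]; omega, by rw [List.getElem_take]⟩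

theorem row_length : ∀ a < 6, ∀ b < 7, (row a b).length = 76 := by decide +kernel

theorem deg_iff (a b c : ℕ) :
    deg a b c = true ↔ (a = 0 ∧ b = 0) ∨ (a = 0 ∧ c = 0) ∨ (b = 0 ∧ c = 0) := by
  unfold deg
  simp [Nat.beq_eq]

theorem tab_ok : ∀ (n a b c : ℕ), a + b + c = n → 0 < a + b + c → a < 6 → b < 7 → c < 76 →
    PPos a b c (T a b c) := by
  intro n
  induction n using Nat.strong_induction_on with
  | _ n ih =>
    intro a b c hn h0 ha hb hc
    have hchk := chk_of_lt ha hb hc
    unfold chk at hchk
    by_cases hdeg : deg a b c = true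
    · rw [hdeg, cond_true] at hchk
      rw [Nat.eq_of_beq_eq_true hchk]
      rw [deg_iff] at hdeg
      refine (pPos_iff _ _ _ _).2 (Or.inl ?_)
      unfold Over
      omega
    · have hdeg' : deg a b c = false := by simpa using hdeg
      rw [hdeg', cond_false] at hchk
      obtain ⟨h1, h2⟩ := mask_spec (Nat.eq_of_beq_eq_true hchk)
      rw [deg_iff] at hdeg
      unfold bl at h1 h2
      simp only [List.mem_append, List.mem_map, List.mem_range, not_or, not_exists, not_and] at h1 h2
      obtain ⟨n1, n2, n3⟩ := h1
      refine (pPos_iff _ _ _ _).2 (Or.inr ⟨?_, ?_, ?_, ?_⟩)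
      · intro a' ha' hp
        have hp' := ih (a' + b + c) (by omega) a' b c rfl (by omega) (by omega) hb hc
        exact n1 a' ha' (uniq (by omega) hp' hp)
      · intro b' hb' hp
        have hp' := ih (a + b' + c) (by omega) a b' c rfl (by omega) ha (by omega) hc
        exact n2 b' hb' (uniq (by omega) hp' hp)
      · intro c' hc' hp
        have hp' := ih (a + b + c') (by omega) a b c' rfl (by omega) ha hb (by omega)
        apply n3
        rw [← uniq (by omega) hp' hp]
        exact take_mem hc' (by rw [row_length a ha b hb]; omega)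
      · intro d hd hp
        rcases (pPos_iff _ _ _ _).1 hp with h | h
        · unfold Over at h; omega
        · rcases h2 d hd with ⟨a', ha', e⟩ | ⟨b', hb', e⟩ | h3
          · have hp' := ih (a' + b + c) (by omega) a' b c rfl (by omega) (by omega) hb hc
            rw [e] at hp'
            exact h.1 a' ha' hp'
          · have hp' := ih (a + b' + c) (by omega) a b' c rfl (by omega) ha (by omega) hc
            rw [e] at hp'
            exact h.2.1 b' hb' hp'
          · obtain ⟨c', hc', e⟩ := mem_take h3
            have hp' := ih (a + b + c') (by omega) a b c' rfl (by omega) ha hb (by omega)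
            change PPos a b c' ((row a b).getD c' 0) at hp'
            rw [e] at hp'
            exact h.2.2.1 c' hc' hp'

theorem pPos_tab {a b c d : ℕ} (h0 : 0 < a + b + c) (ha : a < 6) (hb : b < 7) (hc : c < 76) :
    PPos a b c d ↔ T a b c = d := by
  have h := tab_ok _ a b c rfl h0 ha hb hc
  constructor
  · intro h'
    exact uniq h0 h h'
  · rintro rfl
    exact h

/-- The table repeats. -/
def chkShift : Bool :=
  (List.range 6).all fun a => (List.range 7).all fun b => (List.range 23).all fun i =>
    (Nat.beq a 0 && Nat.beq b 0) || Nat.beq (T a b (52 + i)) (T a b (44 + i) + 8)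

set_option maxRecDepth 100000 in
theorem chkShift_true : chkShift = true := by decide +kernel

theorem shift8 {a b x y : ℕ} (ha : a < 6) (hb : b < 7) :
    PPos a b (44 + x) (44 + y) ↔ PPos a b (52 + x) (52 + y) := by
  refine shift (a := 5) (b := 6) (by omega) (by omega) ?_ (a + b + x + y) a b x y rfl
    (by omega) (by omega)
  intro a' ha' b' hb' i hi j hj
  by_cases h0 : a' = 0 ∧ b' = 0
  · obtain ⟨rfl, rfl⟩ := h0
    exact iff_of_false (not_two (by omega) (by omega)) (not_two (by omega) (by omega))
  rw [pPos_tab (by omega) (by omega) (by omega) (by omega),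
    pPos_tab (by omega) (by omega) (by omega) (by omega)]
  have h := chkShift_true
  unfold chkShift at h
  rw [List.all_eq_true] at h
  have h1 := h a' (List.mem_range.2 (by omega))
  rw [List.all_eq_true] at h1
  have h2 := h1 b' (List.mem_range.2 (by omega))
  rw [List.all_eq_true] at h2
  have h3 := h2 i (List.mem_range.2 (by omega))
  rw [Bool.or_eq_true, Bool.and_eq_true] at h3
  rcases h3 with ⟨h3, h4⟩ | h3
  · exact absurd ⟨Nat.eq_of_beq_eq_true h3, Nat.eq_of_beq_eq_true h4⟩ h0
  · have h4 := Nat.eq_of_beq_eq_true h3
    omega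

/-- For `b < c < d`, the position `(a, b, c, d)` is a `P`-position if and only if `(c, d)` is in the
list `exc`, or `c ≥ s` and the remainder of `c` modulo `8`, together with `d - c`, is in the list
`per`. -/
def Row (a b s : ℕ) (exc per : List (ℕ × ℕ)) : Prop :=
  ∀ c d : ℕ, b < c → c < d →
    (PPos a b c d ↔ (c, d) ∈ exc ∨ (s ≤ c ∧ (c % 8, d - c) ∈ per))

/-- the candidates -/
def cand (s : ℕ) (exc per : List (ℕ × ℕ)) (c : ℕ) : List ℕ :=
  ((exc.filter (fun e => Nat.beq e.1 c)).map (fun e => e.2)) ++
    bif Nat.ble s c then (per.filter (fun e => Nat.beq e.1 (c % 8))).map (fun e => c + e.2) else []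

theorem mem_cand {s : ℕ} {exc per : List (ℕ × ℕ)} {c d : ℕ} (h : c < d) :
    d ∈ cand s exc per c ↔ (c, d) ∈ exc ∨ (s ≤ c ∧ (c % 8, d - c) ∈ per) := by
  unfold cand
  rw [List.mem_append]
  apply or_congr
  · rw [List.mem_map]
    constructor
    · rintro ⟨e, he, rfl⟩
      rw [List.mem_filter] at he
      rw [← Nat.eq_of_beq_eq_true he.2]
      exact he.1
    · intro he
      exact ⟨(c, d), List.mem_filter.2 ⟨he, Nat.beq_refl c⟩, rfl⟩
  · by_cases hs : s ≤ c
    · have : Nat.ble s c = true := (ble_iff _ _).2 hs
      rw [this, cond_true, List.mem_map]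
      constructor
      · rintro ⟨e, he, rfl⟩
        rw [List.mem_filter] at he
        refine ⟨hs, ?_⟩
        rw [← Nat.eq_of_beq_eq_true he.2, Nat.add_sub_cancel_left]
        exact he.1
      · rintro ⟨_, he⟩
        exact ⟨(c % 8, d - c), List.mem_filter.2 ⟨he, Nat.beq_refl _⟩, by simp; omega⟩
    · have : Nat.ble s c = false := by
        rw [Bool.eq_false_iff, ne_eq, ble_iff]; exact hs
      rw [this, cond_false]
      simp [hs]

/-- the check of a row -/
def chkRow (a b s : ℕ) (exc per : List (ℕ × ℕ)) : Bool :=
  (List.range 52).all (fun c => Nat.ble c b ||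
    ((cand s exc per c).filter (fun d => Nat.blt c d) ==
      bif Nat.blt c (T a b c) then [T a b c] else [])) &&
  (exc.all (fun e => Nat.blt e.1 44) && Nat.ble s 44)

theorem row_of_chk {a b s : ℕ} {exc per : List (ℕ × ℕ)} (ha : a < 6) (hb : b < 7)
    (h : chkRow a b s exc per = true) : Row a b s exc per := by
  unfold chkRow at h
  rw [Bool.and_eq_true, Bool.and_eq_true, List.all_eq_true, List.all_eq_true] at h
  obtain ⟨h1, h2, h3⟩ := h
  have hs : s ≤ 44 := (ble_iff _ _).1 h3
  intro c
  induction c using Nat.strong_induction_on with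
  | _ c ih =>
    intro d hbc hcd
    by_cases hc : c < 52
    · have h4 := h1 c (List.mem_range.2 hc)
      rw [Bool.or_eq_true] at h4
      rcases h4 with h4 | h4
      · have := (ble_iff _ _).1 h4
        omega
      · rw [pPos_tab (by omega) ha hb (by omega), ← mem_cand hcd]
        have h5 := eq_of_beq h4
        have h6 : d ∈ cand s exc per c ↔
            d ∈ (cand s exc per c).filter (fun d => Nat.blt c d) := by
          rw [List.mem_filter]
          constructor
          · intro h; exact ⟨h, (blt_iff _ _).2 hcd⟩
          · intro h; exact h.1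
        rw [h6, h5]
        by_cases ht : c < T a b c
        · have : Nat.blt c (T a b c) = true := (blt_iff _ _).2 ht
          rw [this, cond_true, List.mem_singleton, eq_comm]
        · have : Nat.blt c (T a b c) = false := by
            rw [Bool.eq_false_iff, ne_eq, blt_iff]; exact ht
          rw [this, cond_false]
          constructor
          · intro e; omega
          · intro e; simp at e
    · obtain ⟨x, rfl⟩ := Nat.exists_eq_add_of_le (not_lt.1 hc)
      obtain ⟨y, rfl⟩ := Nat.exists_eq_add_of_le (show 52 ≤ d by omega)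
      rw [← shift8 ha hb, ih (44 + x) (by omega) (44 + y) (by omega) (by omega)]
      have e1 : (44 + x) % 8 = (52 + x) % 8 := by omega
      have e2 : 44 + y - (44 + x) = 52 + y - (52 + x) := by omega
      rw [e1, e2]
      have n1 : ∀ u v : ℕ, 44 ≤ u → (u, v) ∉ exc := by
        intro u v hu he
        have := h2 (u, v) he
        rw [blt_iff] at this
        simp only at this
        omega
      constructor
      · rintro (h | ⟨_, h⟩)
        · exact absurd h (n1 _ _ (by omega))
        · exact Or.inr ⟨by omega, h⟩
      · rintro (h | ⟨_, h⟩)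
        · exact absurd h (n1 _ _ (by omega))
        · exact Or.inr ⟨by omega, h⟩

end Pool.Agent.H200GN
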